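import Pool.Agent.H.MP_a71740_an.N
set_option autoImplicit false

namespace Pool.Agent.H.MP_4b0054_an
open Set Metric Filter Topology Finsupp
open Pool.Agent.H.MP_1a7c10_an Pool.Agent.H.MP_a71740_an

variable {p : ℝ}

lemma exists_fr (hp : 0 < p) (hp1 : p ≤ 1) {M : Type} [MetricSpace M] (o : M) :
    ∃ q : (M →₀ ℝ) → ℝ, Fr ℝ p o q := by
  classical
  obtain ⟨q, q0, q1, q2⟩ := SN_inf (cost_sn hp hp1 (D := fun x y : M => dist x y ^ p)
    (fun x y => by positivity))
    (fun k (c : M →₀ ℝ) => ∃ t : ℝ, c = bd k + t • single o 1) (fun c => by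
      induction c using Finsupp.induction_linear with
      | zero => exact ⟨0, 0, by simp⟩
      | add a b ha hb =>
        obtain ⟨k, t, hk⟩ := ha
        obtain ⟨k', t', hk'⟩ := hb
        exact ⟨k + k', t + t', by rw [hk, hk', map_add, add_smul]; abel⟩
      | single x t => exact ⟨single (x, o) t, t, by rw [bd_single, ev, smul_sub]; simp⟩)
    (by
      rintro k c k' c' ⟨t, rfl⟩ ⟨t', rfl⟩
      exact ⟨t + t', by rw [map_add, add_smul]; abel⟩)
    (by
      rintro s k c ⟨t, rfl⟩
      exact ⟨s * t, by rw [map_smul, smul_add, smul_smul]⟩)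
  refine ⟨q, q0, le_antisymm ?_ (q0.nonneg _), fun x y => ?_, fun q' C hC hq' a0 a1 c => ?_⟩
  · simpa [cost] using q1 0 (single o 1) ⟨1, by simp⟩
  · have := q1 (single (x, y) 1) (single x 1 - single y 1) ⟨0, by rw [bd_single, ev]; simp⟩
    rw [cost_single hp] at this
    simpa using this
  · have key : ∀ k, (∃ t : ℝ, c = bd k + t • single o 1) →
        q' c ≤ C * cost p (fun x y : M => dist x y ^ p) k := by
      rintro k ⟨t, rfl⟩
      refine (hq'.add _ _).trans ?_
      rw [hq'.smul, a0, mul_zero, add_zero, bd_eq, cost, Finset.mul_sum]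
      refine (hq'.sum _ _).trans (Finset.sum_le_sum (fun e _ => ?_))
      rw [hq'.smul, Real.norm_eq_abs, mul_left_comm]
      exact mul_le_mul_of_nonneg_left (a1 _ _) (by positivity)
    by_contra hlt
    rw [not_le] at hlt
    rcases hC.eq_or_lt with rfl | hC'
    · have := q2 c (q c + 1) (fun k hk => by
        have := key k hk
        linarith)
      linarith
    · have := q2 c (q' c / C) (fun k hk => by rw [div_le_iff₀' hC']; exact key k hk)
      rw [div_le_iff₀' hC'] at this
      linarith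

lemma exists_free (hp : 0 < p) (hp1 : p ≤ 1) {M : Type} [MetricSpace M] (o : M) :
    ∃ (X : Type) (_ : NormedAddCommGroup X) (_ : Module ℝ X) (_ : CompleteSpace X)
      (L : (M →₀ ℝ) →ₗ[ℝ] X), (∀ (t : ℝ) (u : X), ‖t • u‖ = ‖t‖ ^ p * ‖u‖) ∧
      Fr ℝ p o (fun v => ‖L v‖) ∧ (∀ w : X, ∀ η > 0, ∃ v, ‖w - L v‖ < η) ∧
      ∀ f : M → ℝ, f o = 0 → (∀ x y, |f x - f y| ≤ dist x y) →
        ∃ φ : X →ₗ[ℝ] ℝ, (∀ x, φ (L (single x 1)) = f x) ∧ ∀ u, |φ u| ^ p ≤ ‖u‖ := by
  obtain ⟨q, H⟩ := exists_fr hp hp1 o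
  have hq := H.sn
  letI : SeminormedAddCommGroup (Sq ℝ M) := AddGroupSeminorm.toSeminormedAddCommGroup
    { toFun := q, map_zero' := hq.zero, add_le' := hq.add, neg' := hq.neg }
  haveI : UniformContinuousConstSMul ℝ (Sq ℝ M) := ⟨fun t =>
    AddMonoidHomClass.uniformContinuous_of_bound (DistribSMul.toAddMonoidHom (Sq ℝ M) t)
      (‖t‖ ^ p) (fun a => (hq.smul t a).le)⟩
  let L : (M →₀ ℝ) →ₗ[ℝ] UniformSpace.Completion (Sq ℝ M) :=
    { toFun := fun a => UniformSpace.Completion.coe' (α := Sq ℝ M) a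
      map_add' := fun a b => UniformSpace.Completion.coe_add (α := Sq ℝ M) a b
      map_smul' := fun t a => UniformSpace.Completion.coe_smul (X := Sq ℝ M) t a }
  have hL : ∀ a, ‖L a‖ = q a := fun a => UniformSpace.Completion.norm_coe (E := Sq ℝ M) a
  refine ⟨UniformSpace.Completion (Sq ℝ M), inferInstance, inferInstance, inferInstance, L,
    fun t y => ?_, by simpa only [hL] using H, fun w η hη => ?_, fun f f0 f1 => ?_⟩
  · refine UniformSpace.Completion.induction_on y (isClosed_eq
      (continuous_norm.comp (continuous_const_smul t)) (continuous_const.mul continuous_norm)) ?_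
    intro a
    rw [← UniformSpace.Completion.coe_smul, UniformSpace.Completion.norm_coe,
      UniformSpace.Completion.norm_coe]
    exact hq.smul t a
  · obtain ⟨v, hv⟩ := (UniformSpace.Completion.denseRange_coe (α := Sq ℝ M)).exists_dist_lt w hη
    exact ⟨v, by rwa [dist_eq_norm] at hv⟩
  · let g : (M →₀ ℝ) →ₗ[ℝ] ℝ := linearCombination ℝ f
    have hg : ∀ v, |g v| ^ p ≤ q v := by
      intro v
      have := H.max (fun v => |g v| ^ p) 1 zero_le_one ⟨hp, fun a b => by
        rw [map_add]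
        exact (Real.rpow_le_rpow (abs_nonneg _) (abs_add_le _ _) hp.le).trans
          (Real.rpow_add_le_add_rpow (abs_nonneg _) (abs_nonneg _) hp.le hp1), fun t a => by
        rw [map_smul, smul_eq_mul, abs_mul, Real.mul_rpow (abs_nonneg _) (abs_nonneg _),
          Real.norm_eq_abs]⟩ (by simp [g, f0, Real.zero_rpow hp.ne']) (fun x y => by
        simpa [g] using Real.rpow_le_rpow (abs_nonneg _) (f1 x y) hp.le) v
      simpa using this
    let g' : Sq ℝ M → ℝ := fun v => g v
    have hu : UniformContinuous g' := by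
      rw [Metric.uniformContinuous_iff]
      intro ε hε
      refine ⟨ε ^ p, by positivity, fun {a b} hab => ?_⟩
      rw [dist_eq_norm] at hab
      have := (hg (a - b)).trans_lt hab
      rw [lt1 hp (abs_nonneg _) hε] at this
      exact (congrArg abs (g.map_sub a b)).symm.trans_lt this
    have hc : Continuous (UniformSpace.Completion.extension g') :=
      UniformSpace.Completion.continuous_extension
    have he : ∀ a : Sq ℝ M, UniformSpace.Completion.extension g' a = g' a :=
      UniformSpace.Completion.extension_coe hu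
    refine ⟨{ toFun := UniformSpace.Completion.extension g'
              map_add' := fun a b => ?_
              map_smul' := fun t a => ?_ }, fun x => ?_, fun u => ?_⟩
    · refine UniformSpace.Completion.induction_on₂ a b (isClosed_eq (hc.comp continuous_add)
        ((hc.comp continuous_fst).add (hc.comp continuous_snd))) (fun a b => ?_)
      rw [← UniformSpace.Completion.coe_add, he, he, he]
      exact g.map_add a b
    · refine UniformSpace.Completion.induction_on a (isClosed_eq
        (hc.comp (continuous_const_smul t)) (hc.const_smul t)) (fun a => ?_)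
      rw [← UniformSpace.Completion.coe_smul, he, he]
      exact g.map_smul t a
    · exact (he (single x 1 : M →₀ ℝ)).trans (by simp [g', g])
    · refine UniformSpace.Completion.induction_on u (isClosed_le
        ((Real.continuous_rpow_const hp.le).comp hc.abs) continuous_norm) (fun a => ?_)
      rw [UniformSpace.Completion.norm_coe]
      exact (congrArg (fun t => |t| ^ p) (he a)).trans_le (hg a)

lemma dense_restrict {X W : Type} [AddCommGroup X] [Module ℝ X] [NormedAddCommGroup W]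
    [NormedSpace ℝ W] [CompleteSpace W] (J0 : X →ₗ[ℝ] W) :
    ∃ (Y : Type) (_ : NormedAddCommGroup Y) (_ : NormedSpace ℝ Y) (_ : CompleteSpace Y)
      (J : X →ₗ[ℝ] Y), DenseRange J ∧ ∀ x, ‖J x‖ = ‖J0 x‖ := by
  let V := (LinearMap.range J0).topologicalClosure
  let J : X →ₗ[ℝ] V := J0.codRestrict V (fun x =>
    Submodule.le_topologicalClosure _ (LinearMap.mem_range_self _ x))
  refine ⟨V, inferInstance, inferInstance, inferInstance, J, ?_, fun x => rfl⟩
  rw [DenseRange, Subtype.dense_iff]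
  intro y hy
  refine closure_mono ?_ hy
  rintro _ ⟨x, rfl⟩
  exact ⟨J x, ⟨x, rfl⟩, rfl⟩

lemma sum_pairs (f : ℕ → ℝ) (m : ℕ) :
    ∑ i ∈ Finset.range (2 * m), f i = ∑ k ∈ Finset.range m, (f (2 * k) + f (2 * k + 1)) := by
  induction m with
  | zero => simp
  | succ m ih =>
    rw [show 2 * (m + 1) = 2 * m + 1 + 1 by ring, Finset.sum_range_succ, Finset.sum_range_succ,
      ih, Finset.sum_range_succ]
    ring

noncomputable def sn (g : ℝ → ℝ) (n : ℕ) : ℝ :=
  ∑ k ∈ Finset.range (2 ^ n),
    (2 * g ((2 * k + 1) / 2 ^ (n + 1)) - g (k / 2 ^ n) - g ((k + 1) / 2 ^ n))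

lemma sn_tendsto (g : ℝ → ℝ) (L : ℝ) (hg : ∀ x y, |g x - g y| ≤ L * |x - y|) :
    Tendsto (sn g) atTop (𝓝 0) := by
  let En : ℕ → ℝ := fun n =>
    2 ^ n * ∑ k ∈ Finset.range (2 ^ n), (g ((k + 1) / 2 ^ n) - g (k / 2 ^ n)) ^ 2
  have E0 : ∀ n, 0 ≤ En n := fun n => by positivity
  have E1 : ∀ n, En n ≤ L ^ 2 := by
    intro n
    have : ∑ k ∈ Finset.range (2 ^ n), (g ((k + 1) / 2 ^ n) - g (k / 2 ^ n)) ^ 2
        ≤ (Finset.range (2 ^ n)).card • (L / 2 ^ n) ^ 2 := by
      refine Finset.sum_le_card_nsmul _ _ _ (fun k _ => ?_)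
      have a1 := hg ((k + 1) / 2 ^ n) (k / 2 ^ n)
      rw [show ((k:ℝ) + 1) / 2 ^ n - k / 2 ^ n = 1 / 2 ^ n by ring,
        abs_of_pos (by positivity : (0:ℝ) < 1 / 2 ^ n), mul_one_div] at a1
      rw [← sq_abs]
      exact pow_le_pow_left₀ (abs_nonneg _) a1 2
    rw [Finset.card_range, nsmul_eq_mul] at this
    refine (mul_le_mul_of_nonneg_left this (by positivity)).trans (le_of_eq ?_)
    push_cast
    field_simp
  have E2 : ∀ n, sn g n ^ 2 ≤ En (n + 1) - En n := by
    intro n
    have a1 := sq_sum_le_card_mul_sum_sq (s := Finset.range (2 ^ n)) (f := fun k : ℕ =>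
      2 * g ((2 * k + 1) / 2 ^ (n + 1)) - g (k / 2 ^ n) - g ((k + 1) / 2 ^ n))
    refine a1.trans (le_of_eq ?_)
    simp only [En]
    rw [show 2 ^ (n + 1) = 2 * 2 ^ n by ring, sum_pairs, Finset.card_range, Finset.mul_sum,
      Finset.mul_sum, Finset.mul_sum, ← Finset.sum_sub_distrib]
    refine Finset.sum_congr rfl (fun k _ => ?_)
    push_cast
    rw [show (2 * (k:ℝ) + 1 + 1) / 2 ^ (n + 1) = (k + 1) / 2 ^ n by field_simp; ring,
      show (2 * (k:ℝ)) / 2 ^ (n + 1) = k / 2 ^ n by field_simp; ring]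
    ring
  have hs : Summable (fun n => sn g n ^ 2) := by
    refine summable_of_sum_range_le (c := L ^ 2) (fun n => sq_nonneg _) (fun n => ?_)
    refine (Finset.sum_le_sum (fun i _ => E2 i)).trans ?_
    rw [Finset.sum_range_sub]
    linarith [E0 0, E1 n]
  have := hs.tendsto_atTop_zero
  rw [tendsto_zero_iff_abs_tendsto_zero]
  have h2 := (Real.continuous_sqrt.tendsto 0).comp this
  simpa [Function.comp_def, Real.sqrt_sq_eq_abs] using h2

lemma sn_test (n : ℕ) : ∃ f : ℝ → ℝ, f 0 = 0 ∧ (∀ x y, |f x - f y| ≤ dist x y) ∧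
    sn f n = 2 / Real.pi := by
  have pp := Real.pi_pos
  refine ⟨fun x => (1 - Real.cos (2 ^ (n + 1) * x * Real.pi)) / (2 ^ (n + 1) * Real.pi), by simp,
    fun x y => ?_, ?_⟩
  · rw [← sub_div, abs_div, abs_of_pos (by positivity : (0:ℝ) < 2 ^ (n + 1) * Real.pi),
      div_le_iff₀ (by positivity), sub_sub_sub_cancel_left]
    refine (Real.abs_cos_sub_cos_le _ _).trans (le_of_eq ?_)
    rw [show 2 ^ (n + 1) * y * Real.pi - 2 ^ (n + 1) * x * Real.pi
      = (y - x) * (2 ^ (n + 1) * Real.pi) by ring, abs_mul,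
      abs_of_pos (by positivity : (0:ℝ) < 2 ^ (n + 1) * Real.pi), Real.dist_eq, abs_sub_comm]
  · unfold sn
    rw [Finset.sum_congr rfl (g := fun _ => 4 / (2 ^ (n + 1) * Real.pi))]
    · rw [Finset.sum_const, Finset.card_range, nsmul_eq_mul]
      push_cast
      field_simp
      ring
    · intro k _
      have e1 : (2:ℝ) ^ (n + 1) * ((2 * k + 1) / 2 ^ (n + 1)) * Real.pi
          = k * (2 * Real.pi) + Real.pi := by field_simp
      have e2 : (2:ℝ) ^ (n + 1) * (k / 2 ^ n) * Real.pi = k * (2 * Real.pi) := by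
        field_simp; ring
      have e3 : (2:ℝ) ^ (n + 1) * ((k + 1) / 2 ^ n) * Real.pi = ((k + 1 : ℕ) : ℝ) * (2 * Real.pi) := by
        push_cast; field_simp; ring
      simp only [e1, e2, e3, Real.cos_nat_mul_two_pi, Real.cos_nat_mul_two_pi_add_pi]
      ring

end Pool.Agent.H.MP_4b0054_an
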